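import Pool.Agent.Results.MP_6ea630_nt.ThinFamilies
import Pool.Agent.V1176.LN.Sets

/-!
# The Kloosterman angles at the primes `p ≤ x` for ALL integers in windows

Let `v_ν ≥ 1` be a sequence of exponent of convergence at most `τ` (`1 / a` for `v_ν = (ν + 1) ^ a`, and `0` for
`v_ν = b ^ ν`, `b > 1`), `ϑ < 1` and `0 ≤ s < 1`. For all `α > 0` outside a set of Hausdorff dimension at most
`(s + τ) / (1 - ϑ)` the following holds for all large `ν`, for ALL integers `n ≥ 1` with `|n - α v_ν| ≤ v_ν ^ ϑ` and for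
EVERY `x` with `n ^ (1 - s) ≤ x ≤ n ^ s`: the number of the primes `p ≤ x` with `p ∤ n` whose angle `θ_p(n)` is in a
prescribed set (which may depend on `p`) is given by the numbers of the residues modulo `p` with this property, up to
`ε π(x)`; and both signs of `S(n, 1; p)` occur with positive proportion, even with large absolute value.

Method: the large sieve gives few exceptional integers up to `X` (`TH375.KL.all_scales`), and the metric theorem
`Y854.GM.windowsV` leaves none.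
-/

set_option autoImplicit false

namespace Pool.Agent.Results.MP_6ea630_nt.AllIntegersInWindows

open Finset
open Pool.Agent.Results.MP_6ea630_nt.ThinFamilies (kloosterman angle count model signCount)

/-- the exponent of convergence of the sequence `v` is at most `τ` -/
def ExpLe (v : ℕ → ℝ) (τ : ℝ) : Prop := ∀ t : ℝ, τ < t → Summable (fun n : ℕ => (v n) ^ (-t))

/-- `P n x` holds for all large `ν`, ALL integers `n ≥ 1` with `|n - α v_ν| ≤ v_ν ^ ϑ` and ALL `x` between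
`n ^ (1 - s)` and `n ^ s`. -/
def InWindows (v : ℕ → ℝ) (ϑ s α : ℝ) (P : ℕ → ℕ → Prop) : Prop :=
  ∃ ν₀ : ℕ, ∀ ν : ℕ, ν₀ ≤ ν → ∀ n : ℕ, 1 ≤ n → |(n : ℝ) - α * v ν| ≤ (v ν) ^ ϑ →
    ∀ x : ℕ, (n : ℝ) ^ (1 - s) ≤ x → (x : ℝ) ≤ (n : ℝ) ^ s → P n x

/-! ### The proof -/

open Pool.Agent.Results.MP_6ea630_nt.ThinFamilies (AG SG dvd_iff rho_ev)
open Pool.Agent.V1176.LN (cnt mdl ind)

lemma count_cnt (I : ℕ → Set ℝ) (n : ℤ) (x : ℕ) : cnt (AG I) n x = count I n x := by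
  classical
  unfold cnt count
  congr 1
  refine filter_congr fun p _ => and_congr_right fun _ => ?_
  rw [dvd_iff]
  exact Iff.rfl

lemma model_mdl (I : ℕ → Set ℝ) (x : ℕ) : mdl (AG I) x = model I x := by
  classical
  unfold mdl model
  refine sum_congr rfl fun p _ => ?_
  congr 2
  apply congrArg
  refine filter_congr fun r _ => ?_
  rw [dvd_iff, Int.cast_natCast]
  unfold angle kloosterman
  rw [Int.cast_natCast]
  exact Iff.rfl

lemma sign_cnt (σ η : ℝ) (n : ℤ) (x : ℕ) : cnt (SG σ η) n x = signCount σ η n x := by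
  classical
  unfold cnt signCount
  congr 1
  refine filter_congr fun p _ => and_congr_right fun _ => ?_
  rw [dvd_iff]
  exact Iff.rfl

lemma sign_mdl (σ η : ℝ) (hσ : σ = 1 ∨ σ = -1) (hη : 0 ≤ η) {ε : ℝ} (hε : 0 < ε) :
    ∀ᶠ x : ℕ in Filter.atTop, (1 / 4 - η - ε) * Nat.primeCounting x ≤ mdl (SG σ η) x := by
  refine Pool.Agent.V1176.LN.mdl_ge (SG σ η) (m := 1 / 4 - η) (fun δ hδ => ?_) hε
  filter_upwards [rho_ev η hη σ hσ δ hδ] with p hp hpp
  refine (hp hpp).trans (le_of_eq ?_)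
  rw [Pool.Agent.V1176.LN.nu_ind]
  unfold Pool.Agent.V11113.MR.rho
  congr!

/-- the number with the sign decreases with the bound -/
lemma signCount_anti (σ : ℝ) {η η' : ℝ} (h : η ≤ η') (n : ℤ) (x : ℕ) :
    signCount σ η' n x ≤ signCount σ η n x := by
  classical
  unfold signCount
  refine card_le_card fun p hp => ?_
  rw [mem_filter] at hp ⊢
  refine ⟨hp.1, hp.2.1, hp.2.2.1, lt_of_le_of_lt ?_ hp.2.2.2⟩
  exact mul_le_mul_of_nonneg_right h (Real.sqrt_nonneg _)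

/-- the nonnegative rationals -/
noncomputable def rat (k : ℕ) : ℝ := |(((Denumerable.eqv ℚ).symm k : ℚ) : ℝ)|

lemma rat_nonneg (k : ℕ) : 0 ≤ rat k := abs_nonneg _

lemma exists_rat {η ε : ℝ} (hη : 0 ≤ η) (hε : 0 < ε) : ∃ k : ℕ, η ≤ rat k ∧ rat k ≤ η + ε := by
  obtain ⟨r, h1, h2⟩ := exists_rat_btwn (show η < η + ε by linarith)
  refine ⟨Denumerable.eqv ℚ r, ?_⟩
  unfold rat
  rw [Equiv.symm_apply_apply, abs_of_pos (by linarith)]
  exact ⟨h1.le, h2.le⟩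

/-- from the law to the signs -/
lemma sign_step {η ε r : ℝ} (hr1 : η ≤ r) (hr2 : r ≤ η + ε / 3) {σ : ℝ} {n : ℤ} {x : ℕ}
    (h1 : |(cnt (SG σ r) n x : ℝ) - mdl (SG σ r) x| ≤ ε / 3 * Nat.primeCounting x)
    (h2 : (1 / 4 - r - ε / 3) * Nat.primeCounting x ≤ mdl (SG σ r) x) :
    (1 / 4 - η - ε) * Nat.primeCounting x ≤ signCount σ η n x := by
  have h3 : ((signCount σ r n x : ℕ) : ℝ) ≤ signCount σ η n x := by
    exact_mod_cast signCount_anti σ hr1 n x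
  rw [sign_cnt] at h1
  have h4 := (abs_le.1 h1).1
  have hπ : (0 : ℝ) ≤ Nat.primeCounting x := Nat.cast_nonneg _
  nlinarith

/-- **The Kloosterman angles for all integers in windows.** -/
theorem result :
    (∀ (v : ℕ → ℝ) (τ ϑ s : ℝ), (∀ ν, 1 ≤ v ν) → 0 ≤ τ → ExpLe v τ → ϑ < 1 → 0 ≤ s → s < 1 →
      ∀ I : ℕ → ℕ → Set ℝ,
      ∃ E : Set ℝ, dimH E ≤ ENNReal.ofReal ((s + τ) / (1 - ϑ)) ∧ ∀ α : ℝ, 0 < α → α ∉ E →
        ∀ ε : ℝ, 0 < ε →
          (∀ k : ℕ, InWindows v ϑ s α (fun n x =>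
            |(count (I k) n x : ℝ) - model (I k) x| ≤ ε * Nat.primeCounting x)) ∧
          ∀ η : ℝ, 0 ≤ η → InWindows v ϑ s α (fun n x =>
            (1 / 4 - η - ε) * Nat.primeCounting x ≤ signCount 1 η n x ∧
            (1 / 4 - η - ε) * Nat.primeCounting x ≤ signCount (-1) η n x)) ∧
    (∀ a : ℝ, 0 < a → ExpLe (fun n : ℕ => ((n : ℝ) + 1) ^ a) (1 / a)) ∧
    (∀ b : ℝ, 1 < b → ExpLe (fun n : ℕ => b ^ n) 0) := by
  refine ⟨?_, fun κ hκ => Pool.Agent.Y854.GM.expLe_pow κ hκ,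
    fun b hb => Pool.Agent.Y854.GM.expLe_geom b hb⟩
  intro v τ ϑ s hv hτ hvτ hϑ hs0 hs1 I
  obtain ⟨E₁, hE₁, h₁⟩ := Pool.Agent.V1176.LN.win_sets (fun k => AG (I k)) hv hτ hvτ hs0 hs1 hϑ
  obtain ⟨E₂, hE₂, h₂⟩ := Pool.Agent.V1176.LN.win_sets (fun k => SG 1 (rat k)) hv hτ hvτ hs0 hs1 hϑ
  obtain ⟨E₃, hE₃, h₃⟩ := Pool.Agent.V1176.LN.win_sets (fun k => SG (-1) (rat k)) hv hτ hvτ hs0 hs1 hϑ
  refine ⟨E₁ ∪ (E₂ ∪ E₃), ?_, fun α hα hαE ε hε => ⟨fun k => ?_, fun η hη => ?_⟩⟩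
  · rw [dimH_union, dimH_union]
    exact max_le hE₁ (max_le hE₂ hE₃)
  · obtain ⟨ν₀, h0⟩ := h₁ α hα (fun h => hαE (Or.inl h)) k ε hε
    refine ⟨ν₀, fun ν hν n hn hw x hx1 hx2 => ?_⟩
    have := h0 ν hν n hn hw x hx1 hx2
    simpa only [count_cnt, model_mdl] using this
  · obtain ⟨k, hk1, hk2⟩ := exists_rat hη (show 0 < ε / 3 by positivity)
    obtain ⟨ν₂, h2⟩ := h₂ α hα (fun h => hαE (Or.inr (Or.inl h))) k (ε / 3) (by positivity)
    obtain ⟨ν₃, h3⟩ := h₃ α hα (fun h => hαE (Or.inr (Or.inr h))) k (ε / 3) (by positivity)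
    obtain ⟨ν₄, h4⟩ := Pool.Agent.V1176.LN.window_large (v := v) (τ := τ) (ϑ := ϑ) (s := s) hv hτ hvτ hs1 hϑ hα
      ((sign_mdl 1 (rat k) (Or.inl rfl) (rat_nonneg k) (show 0 < ε / 3 by positivity)).and
        (sign_mdl (-1) (rat k) (Or.inr rfl) (rat_nonneg k) (show 0 < ε / 3 by positivity)))
    refine ⟨max ν₂ (max ν₃ ν₄), fun ν hν n hn hw x hx1 hx2 => ?_⟩
    have k2 := h2 ν ((le_max_left _ _).trans hν) n hn hw x hx1 hx2
    have k3 := h3 ν (((le_max_left _ _).trans (le_max_right _ _)).trans hν) n hn hw x hx1 hx2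
    have k4 := h4 ν (((le_max_right _ _).trans (le_max_right _ _)).trans hν) n hn hw x hx1 hx2
    exact ⟨sign_step hk1 hk2 k2 k4.1, sign_step hk1 hk2 k3 k4.2⟩

end Pool.Agent.Results.MP_6ea630_nt.AllIntegersInWindows
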