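import Pool.Agent.V1142.EQ.Emb

/-!
# Katz's conjecture is the law on average over the primes that split in the members of a family of fields

`a ≠ 0` is an integer and `θ_p(a)` the Kloosterman angle of `p`.  `K_0, K_1, ...` are number fields
different from `ℚ` (inside the algebraic closure of `ℚ`) with `[K_i K_j : ℚ] = [K_i : ℚ] [K_j : ℚ]` for
`i ≠ j`, for example the quadratic fields, or any sequence of linearly disjoint fields of degree `n_i` with
Galois group the symmetric group, with `n_i` tending to infinity.  We compare the distribution of the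
`θ_p(a)` for all primes with the distribution for the primes counted with their number of prime ideals of
degree one of `K_i` (if `K_i` is Galois: the distribution for the primes that split completely in `K_i`, for
a quadratic field of discriminant `D` for the primes `p` with `(D / p) = 1`).

The places `v` of `ℚ` correspond to the primes `p = N(v)`.
-/

set_option autoImplicit false

namespace Pool.Agent.Results.MP_6ea630_nt.AverageOverFields

open NumberField IsDedekindDomain Filter Topology
open Pool.Agent.V1142.EQ (fixedEmbeddings rankOf avg avgOver)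

/-- The places of `ℚ`. -/
abbrev Place : Type := HeightOneSpectrum (𝓞 ℚ)

/-- The prime of the place `v` of `ℚ`. -/
noncomputable def prime (v : Place) : ℕ := Ideal.absNorm v.asIdeal

/-- `σ` is a Frobenius element at `v`: for some maximal ideal `Q` above `v` of the ring of all algebraic
integers, `σ x ≡ x ^ N(v)` modulo `Q` for all `x`. -/
def IsFrobenius (v : Place) (σ : Gal(AlgebraicClosure ℚ/ℚ)) : Prop :=
  ∃ Q : Ideal (𝓞 (AlgebraicClosure ℚ)), Q.IsMaximal ∧
    Q.comap (algebraMap (𝓞 ℚ) (𝓞 (AlgebraicClosure ℚ))) = v.asIdeal ∧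
    ∀ x : 𝓞 (AlgebraicClosure ℚ), σ • x - x ^ Ideal.absNorm v.asIdeal ∈ Q

/-- The Kloosterman angle `θ_p(a)`, `S(a, 1; p) = 2 √p cos θ_p(a)`. -/
noncomputable def angle (a : ℤ) (p : ℕ) : ℝ :=
  Real.arccos ((∑ x ∈ Finset.Ico 1 p, Real.cos (2 * Real.pi *
    ((((a : ZMod p) * (x : ZMod p) + (x : ZMod p)⁻¹).val : ℕ) : ℝ) / (p : ℝ))) /
      (2 * Real.sqrt (p : ℝ)))

open Classical in
/-- The indicator function of the primes `p`, `(p, a) = 1`, with `α ≤ θ_p(a) ≤ β`. -/
noncomputable def inside (a : ℤ) (α β : ℝ) (v : Place) : ℝ :=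
  if Nat.Coprime (prime v) a.natAbs ∧ α ≤ angle a (prime v) ∧ angle a (prime v) ≤ β then 1 else 0

/-- The Sato-Tate measure of `[α, β]`. -/
noncomputable def satoTate (α β : ℝ) : ℝ := (2 / Real.pi) * ∫ u in α..β, Real.sin u ^ 2

/-- Katz's conjecture for `a`: for each interval the proportion of the primes `p ≤ N` with
`α ≤ θ_p(a) ≤ β` tends to the Sato-Tate measure. -/
def Katz (a : ℤ) : Prop :=
  ∀ α β : ℝ, 0 ≤ α → α ≤ β → β ≤ Real.pi → Tendsto (avg (inside a α β)) atTop (𝓝 (satoTate α β))

/-- Katz's conjecture for `a` over `K`: the same for the primes counted with the number of the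
embeddings of `K` fixed by the Frobenius elements (their prime ideals of degree one in `K`). -/
def KatzOver (φ : Place → Gal(AlgebraicClosure ℚ/ℚ)) (K : IntermediateField ℚ (AlgebraicClosure ℚ))
    (a : ℤ) : Prop :=
  ∀ α β : ℝ, 0 ≤ α → α ≤ β → β ≤ Real.pi →
    Tendsto (avgOver φ K (inside a α β)) atTop (𝓝 (satoTate α β))

/-- Katz's conjecture for `a` on average over the `K i`: for each interval and `δ > 0`, for all large `m`,
for all large `N` (depending on `m`), the mean over `i < m`, with the weights `1 / (rankOf (K i) - 1)`, of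
the distance of the proportion over `K i` at the scale `N` from the Sato-Tate measure is at most `δ`. -/
def KatzOnAverage (φ : Place → Gal(AlgebraicClosure ℚ/ℚ))
    (K : ℕ → IntermediateField ℚ (AlgebraicClosure ℚ)) (a : ℤ) : Prop :=
  ∀ α β : ℝ, 0 ≤ α → α ≤ β → β ≤ Real.pi → ∀ δ : ℝ, 0 < δ → ∀ᶠ m in atTop, ∀ᶠ N in atTop,
    (∑ i ∈ Finset.range m, 1 / ((rankOf (K i) : ℝ) - 1) *
      |avgOver φ (K i) (inside a α β) N - satoTate α β|) /
      (∑ i ∈ Finset.range m, 1 / ((rankOf (K i) : ℝ) - 1)) ≤ δ

/-- Let `K_0, K_1, ...` be number fields, all different from `ℚ`, with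
`[K_i K_j : ℚ] = [K_i : ℚ] [K_j : ℚ]` for `i ≠ j`.

1. (Unconditional.)  For each finite set `J` of indices and `ε > 0`, for all large `N`, for all integers `a`
and all intervals: the sum over `i ∈ J` of the squares of the differences between the proportions of the
primes `p` with `α ≤ θ_p(a) ≤ β` over `K_i` and over `ℚ` at the scale `N`, divided by `rankOf (K_i) - 1`, is
at most `1 + ε`.  (`N` does not depend on `a` and the interval.)

2. If infinitely many of the `rankOf (K_i)` are bounded by one number `D`, or more generally if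
`∑ 1 / (rankOf (K_i) - 1)` diverges, then for each `a` Katz's conjecture for `a` is equivalent to Katz's
conjecture for `a` on average over the `K_i`; in particular it holds if it holds over all but finitely many
of the `K_i`. -/
theorem result (φ : Place → Gal(AlgebraicClosure ℚ/ℚ)) (hφ : ∀ v, IsFrobenius v (φ v))
    (K : ℕ → IntermediateField ℚ (AlgebraicClosure ℚ)) (hfin : ∀ i, FiniteDimensional ℚ (K i))
    (hne : ∀ i, K i ≠ ⊥)
    (hdisj : ∀ i j, i ≠ j →
      Module.finrank ℚ (K i ⊔ K j : IntermediateField ℚ (AlgebraicClosure ℚ)) =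
        Module.finrank ℚ (K i) * Module.finrank ℚ (K j)) :
    (∀ (J : Finset ℕ) (ε : ℝ), 0 < ε → ∀ᶠ N in atTop, ∀ (a : ℤ) (α β : ℝ),
      ∑ i ∈ J, (avgOver φ (K i) (inside a α β) N - avg (inside a α β) N) ^ 2 /
        ((rankOf (K i) : ℝ) - 1) ≤ 1 + ε) ∧
    (((∃ D : ℕ, ∃ᶠ i in atTop, rankOf (K i) ≤ D) ∨
        ¬ Summable fun i => 1 / ((rankOf (K i) : ℝ) - 1)) →
      ∀ a : ℤ, (Katz a ↔ KatzOnAverage φ K a) ∧
        ((∀ᶠ i in atTop, KatzOver φ (K i) a) → Katz a)) := by
  have hin : ∀ (a : ℤ) (α β : ℝ) (v : Place), |inside a α β v| ≤ 1 := by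
    intro a α β v
    unfold inside
    split <;> simp
  refine ⟨fun J ε hε => ?_, fun h a => ?_⟩
  · filter_upwards [Pool.Agent.V1142.EQ.bessel' φ hφ K hfin hne hdisj J ε hε] with N hN a α β
    exact hN _ (hin a α β)
  · have hs : ¬ Summable fun i => 1 / ((rankOf (K i) : ℝ) - 1) := by
      rcases h with ⟨D, hD⟩ | h
      · exact Pool.Agent.V1142.EQ.not_summable' K hfin hne D hD
      · exact h
    refine ⟨⟨fun h α β h1 h2 h3 => ?_, fun h α β h1 h2 h3 => ?_⟩, fun h α β h1 h2 h3 => ?_⟩
    · exact (Pool.Agent.V1142.EQ.equivalence' φ hφ K hfin hne hdisj hs _ 1 (hin a α β) _).1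
        (h α β h1 h2 h3)
    · exact (Pool.Agent.V1142.EQ.equivalence' φ hφ K hfin hne hdisj hs _ 1 (hin a α β) _).2
        (h α β h1 h2 h3)
    · refine Pool.Agent.V1142.EQ.descent' φ hφ K hfin hne hdisj hs _ 1 (hin a α β) _ ?_
      filter_upwards [h] with i hi
      exact hi α β h1 h2 h3

end Pool.Agent.Results.MP_6ea630_nt.AverageOverFields
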