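import Pool.Agent.Results.MP_6ea630_nt.AllIntegersInWindows

/-!
# The Kloosterman angles at the primes `p ≤ x` for ALL integers in small residue classes

Let `q` be a prime, `0 ≤ s < 1` and `σ > 0`. For all `q`-adic integers `α` outside a set of Hausdorff dimension at most
`s / σ` the following holds for all large `Y`, for ALL integers `1 ≤ n ≤ Y` with `|n - α|_q ≤ Y ^ (-σ)` and for
EVERY `x` with `n ^ (1 - s) ≤ x ≤ n ^ s`: the number of the primes `p ≤ x` with `p ∤ n` whose angle `θ_p(n)` is in a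
prescribed set (which may depend on `p`) is given by the numbers of the residues modulo `p` with this property, up to
`ε π(x)`; and both signs of `S(n, 1; p)` occur with positive proportion, even with large absolute value.
-/

set_option autoImplicit false

namespace Pool.Agent.Results.MP_6ea630_nt.ResidueClasses

open Finset
open Pool.Agent.Results.MP_6ea630_nt.ThinFamilies (kloosterman angle count model signCount)

/-- `P n x` holds for all large `Y`, ALL integers `1 ≤ n ≤ Y` with `|n - α|_q ≤ Y ^ (-σ)` and ALL `x` between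
`n ^ (1 - s)` and `n ^ s`. -/
def InClasses (q : ℕ) [Fact q.Prime] (σ s : ℝ) (α : ℤ_[q]) (P : ℕ → ℕ → Prop) : Prop :=
  ∃ Y₀ : ℝ, ∀ Y : ℝ, Y₀ ≤ Y → ∀ n : ℕ, 1 ≤ n → (n : ℝ) ≤ Y → ‖(n : ℤ_[q]) - α‖ ≤ Y ^ (-σ) →
    ∀ x : ℕ, (n : ℝ) ^ (1 - s) ≤ x → (x : ℝ) ≤ (n : ℝ) ^ s → P n x

open Pool.Agent.Results.MP_6ea630_nt.ThinFamilies (AG SG)
open Pool.Agent.Results.MP_6ea630_nt.AllIntegersInWindows (count_cnt model_mdl sign_mdl rat rat_nonneg exists_rat sign_step)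

/-- **The Kloosterman angles for all integers in small residue classes.** -/
theorem result (q : ℕ) [Fact q.Prime] (σ s : ℝ) (hσ : 0 < σ) (hs0 : 0 ≤ s) (hs1 : s < 1)
    (I : ℕ → ℕ → Set ℝ) :
    ∃ E : Set ℤ_[q], dimH E ≤ ENNReal.ofReal (s / σ) ∧ ∀ α : ℤ_[q], α ∉ E → ∀ ε : ℝ, 0 < ε →
      (∀ k : ℕ, InClasses q σ s α (fun n x =>
        |(count (I k) n x : ℝ) - model (I k) x| ≤ ε * Nat.primeCounting x)) ∧
      ∀ η : ℝ, 0 ≤ η → InClasses q σ s α (fun n x =>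
        (1 / 4 - η - ε) * Nat.primeCounting x ≤ signCount 1 η n x ∧
        (1 / 4 - η - ε) * Nat.primeCounting x ≤ signCount (-1) η n x) := by
  obtain ⟨E₁, hE₁, h₁⟩ := Pool.Agent.V1176.LN.cls_sets q (fun k => AG (I k)) hs0 hs1 hσ
  obtain ⟨E₂, hE₂, h₂⟩ := Pool.Agent.V1176.LN.cls_sets q (fun k => SG 1 (rat k)) hs0 hs1 hσ
  obtain ⟨E₃, hE₃, h₃⟩ := Pool.Agent.V1176.LN.cls_sets q (fun k => SG (-1) (rat k)) hs0 hs1 hσ
  have hN : dimH (Set.range (fun n : ℕ => (n : ℤ_[q]))) = 0 := (Set.countable_range _).dimH_zero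
  refine ⟨(E₁ ∪ (E₂ ∪ E₃)) ∪ Set.range (fun n : ℕ => (n : ℤ_[q])), ?_, fun α hαE ε hε => ?_⟩
  · rw [dimH_union, dimH_union, dimH_union, hN]
    exact max_le (max_le hE₁ (max_le hE₂ hE₃)) bot_le
  have hα1 : α ∉ E₁ := fun h => hαE (Or.inl (Or.inl h))
  have hα2 : α ∉ E₂ := fun h => hαE (Or.inl (Or.inr (Or.inl h)))
  have hα3 : α ∉ E₃ := fun h => hαE (Or.inl (Or.inr (Or.inr h)))
  have hα4 : ∀ n : ℕ, (n : ℤ_[q]) ≠ α := fun n h => hαE (Or.inr ⟨n, h⟩)
  refine ⟨fun k => ?_, fun η hη => ?_⟩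
  · obtain ⟨Y₀, h0⟩ := h₁ α hα1 k ε hε
    refine ⟨Y₀, fun Y hY n hn hnY hw x hx1 hx2 => ?_⟩
    have := h0 Y hY n hn hnY hw x hx1 hx2
    simpa only [count_cnt, model_mdl] using this
  · obtain ⟨k, hk1, hk2⟩ := exists_rat hη (show 0 < ε / 3 by positivity)
    obtain ⟨Y₂, h2⟩ := h₂ α hα2 k (ε / 3) (by positivity)
    obtain ⟨Y₃, h3⟩ := h₃ α hα3 k (ε / 3) (by positivity)
    obtain ⟨Y₄, h4⟩ := Pool.Agent.V1176.LN.class_large (σ := σ) (s := s) q hσ hs1 hα4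
      ((sign_mdl 1 (rat k) (Or.inl rfl) (rat_nonneg k) (show 0 < ε / 3 by positivity)).and
        (sign_mdl (-1) (rat k) (Or.inr rfl) (rat_nonneg k) (show 0 < ε / 3 by positivity)))
    refine ⟨max Y₂ (max Y₃ Y₄), fun Y hY n hn hnY hw x hx1 hx2 => ?_⟩
    have k2 := h2 Y ((le_max_left _ _).trans hY) n hn hnY hw x hx1 hx2
    have k3 := h3 Y (((le_max_left _ _).trans (le_max_right _ _)).trans hY) n hn hnY hw x hx1 hx2
    have k4 := h4 Y (((le_max_right _ _).trans (le_max_right _ _)).trans hY) n hn hnY hw x hx1 hx2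
    exact ⟨sign_step hk1 hk2 k2 k4.1, sign_step hk1 hk2 k3 k4.2⟩

end Pool.Agent.Results.MP_6ea630_nt.ResidueClasses
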