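import Pool.Agent.V11113.MR.Mean
import Pool.Agent.V11113.MR.BilFam

/-!
# The Kloosterman angles at the primes `p ≤ x` for almost all members of thin families of integers

The families consist of the integers `a + v i`, where `a` is an arbitrary integer and the `v i` are the least residues
modulo an arbitrary large integer `m` of a family with exponential sums `O(#s m ^ (-δ))`, with an arbitrarily small `δ > 0`
(`Small`). Examples (part (3)): the values `x · Q y + f(x) + g(y)` modulo a prime `p` at the pairs of vectors of two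
arbitrary sets with `#A #A' ≥ p ^ (d + 2 δ)`, with arbitrary functions `f` and `g`; for `d = 1` this contains the products of
the elements of two arbitrary sets with `#A #A' ≥ p ^ (1 + 2 δ)` and the multiplicative subgroups of order
`p ^ (1 / 2 + δ)`. Nothing else is assumed about the family; it may have as few as about `m ^ (2 δ)` different members.

For almost all members `n` the number of the primes `p ≤ x` with an angle `θ_p(n)` in a prescribed set (which may depend on
`p`) is given by the numbers of the residues modulo `p` with this property, for EVERY `x` with `X ≤ x ≤ m ^ c` (1), and both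
signs of `S(n, 1; p)` occur with positive proportion in all these ranges, even with large absolute value (2).

Method: the law of large numbers for local conditions `V11113.MR.lln` (by completion such a family is equidistributed modulo
all `q ≤ m ^ c'` with a power saving). The moments of the Kloosterman sums over the residue classes are from the starting
files (TH375.KL).
-/

set_option autoImplicit false

namespace Pool.Agent.Results.MP_6ea630_nt.ThinFamilies

open Finset Matrix

/-- The Kloosterman sum `S(n, 1; p)`. -/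
noncomputable def kloosterman (p : ℕ) (n : ℤ) : ℝ :=
  ∑ x ∈ Ico 1 p, Real.cos (2 * Real.pi * ((((n : ZMod p) * (x : ZMod p) + (x : ZMod p)⁻¹).val : ℕ) : ℝ) / (p : ℝ))

/-- The angle `θ` in `[0, π]` with `2 p ^ (1 / 2) cos θ = S(n, 1; p)`. -/
noncomputable def angle (p : ℕ) (n : ℤ) : ℝ := Real.arccos (kloosterman p n / (2 * Real.sqrt p))

open Classical in
/-- The number of the primes `p ≤ x` which do not divide `n` and whose angle `θ_p(n)` is in the set `I p`. -/
noncomputable def count (I : ℕ → Set ℝ) (n : ℤ) (x : ℕ) : ℕ :=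
  ((range (x + 1)).filter (fun p : ℕ => p.Prime ∧ ¬ (p : ℤ) ∣ n ∧ angle p n ∈ I p)).card

open Classical in
/-- The expected number: the sum over the primes `p ≤ x` of the proportion of the residues `r` modulo `p` with `p ∤ r` whose
angle is in the set `I p`. -/
noncomputable def model (I : ℕ → Set ℝ) (x : ℕ) : ℝ :=
  ∑ p ∈ (range (x + 1)).filter Nat.Prime, (((range p).filter (fun r : ℕ => ¬ (p : ℤ) ∣ (r : ℤ) ∧ angle p r ∈ I p)).card : ℝ) / p

open Classical in
/-- The number of the primes `p ≤ x` which do not divide `n` with `σ S(n, 1; p) > η p ^ (1 / 2)`. -/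
noncomputable def signCount (σ η : ℝ) (n : ℤ) (x : ℕ) : ℕ :=
  ((range (x + 1)).filter (fun p : ℕ => p.Prime ∧ ¬ (p : ℤ) ∣ n ∧ η * Real.sqrt p < σ * kloosterman p n)).card

/-- The exponential sums over the family `v i ∈ ℤ / m`, `i ∈ s`, at all nonzero frequencies are at most
`#s m ^ (-δ)`. (`ZMod.stdAddChar` is the character `e(x / m)`.) -/
def Small (m : ℕ) [NeZero m] (δ : ℝ) {ι : Type} (s : Finset ι) (v : ι → ZMod m) : Prop :=
  ∀ b : ZMod m, b ≠ 0 → ‖∑ i ∈ s, (ZMod.stdAddChar (b * v i) : ℂ)‖ ≤ s.card * (m : ℝ) ^ (-δ)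

open Classical in
/-- The number of the members `i` of the family for which the integer `n i` fails to have the property `E x` for SOME `x` with
`X ≤ x ≤ Y`. -/
noncomputable def exceptions {ι : Type} (s : Finset ι) (n : ι → ℤ) (E : ℕ → ℤ → Prop) (X : ℕ) (Y : ℝ) : ℕ :=
  (s.filter (fun i => ∃ x : ℕ, X ≤ x ∧ (x : ℝ) ≤ Y ∧ ¬ E x (n i))).card

/-! ### The proof -/

/-- the sum as a function on the residue classes -/
noncomputable def kl (p : ℕ) (z : ZMod p) : ℝ :=
  ∑ x ∈ Ico 1 p, Real.cos (2 * Real.pi * (((z * (x : ZMod p) + (x : ZMod p)⁻¹).val : ℕ) : ℝ) / (p : ℝ))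

lemma kl_eq {p : ℕ} [hp : Fact p.Prime] (a : ZMod p) : kl p a = Pool.Agent.TH375.KL.rk p a 1 := by
  unfold kl Pool.Agent.TH375.KL.rk Pool.Agent.TH375.KL.KK Pool.Agent.Helper916.Kl
  rw [Complex.re_sum]
  have h1 : ∀ z : ZMod p, (ZMod.stdAddChar (a * z + 1 * z⁻¹) : ℂ).re =
      Real.cos (2 * Real.pi * (((a * z + z⁻¹).val : ℕ) : ℝ) / (p : ℝ)) := by
    intro z
    rw [one_mul, ZMod.stdAddChar_apply, ZMod.toCircle_apply]
    have h2 : (2 * (Real.pi : ℂ) * Complex.I * ((a * z + z⁻¹).val : ℂ) / (p : ℂ)) =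
        ((2 * Real.pi * (((a * z + z⁻¹).val : ℕ) : ℝ) / (p : ℝ) : ℝ) : ℂ) * Complex.I := by
      push_cast
      ring
    rw [h2, Complex.exp_ofReal_mul_I_re]
  rw [Finset.sum_congr rfl fun z _ => h1 z]
  refine Finset.sum_nbij' (fun x => (x : ZMod p)) ZMod.val ?_ ?_ ?_ ?_ ?_
  · intro x hx
    rw [Finset.mem_Ico] at hx
    rw [Finset.mem_erase]
    refine ⟨?_, Finset.mem_univ _⟩
    intro h0
    rw [ZMod.natCast_eq_zero_iff] at h0
    exact absurd (Nat.le_of_dvd hx.1 h0) (not_le.2 hx.2)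
  · intro z hz
    rw [Finset.mem_erase] at hz
    rw [Finset.mem_Ico]
    exact ⟨Nat.pos_of_ne_zero fun h0 => hz.1 ((ZMod.val_eq_zero z).1 h0), ZMod.val_lt z⟩
  · intro x hx
    rw [Finset.mem_Ico] at hx
    exact ZMod.val_cast_of_lt hx.2
  · intro z _
    exact ZMod.natCast_zmod_val z
  · intro x _
    rfl

/-- the sets of the residue classes for the signs -/
def SG (σ η : ℝ) (p : ℕ) : Set (ZMod p) := {z | z ≠ 0 ∧ η * Real.sqrt p < σ * kl p z}

/-- the sets of the residue classes for the angles -/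
def AG (I : ℕ → Set ℝ) (p : ℕ) : Set (ZMod p) := {z | z ≠ 0 ∧ Real.arccos (kl p z / (2 * Real.sqrt p)) ∈ I p}

open Classical in
lemma rho_SG (η : ℝ) (hη : 0 ≤ η) (σ : ℝ) (hσ : σ = 1 ∨ σ = -1) (p : ℕ) (hp : p.Prime) :
    1 / 4 - η - 1 / Real.sqrt p - 1 / p ≤ Pool.Agent.V11113.MR.rho (fun p => p) (SG σ η) p := by
  have : Fact p.Prime := ⟨hp⟩
  have : NeZero p := ⟨hp.ne_zero⟩
  have hp0 : (0 : ℝ) < p := by exact_mod_cast hp.pos
  have hσ2 : σ ^ 2 = 1 := by rcases hσ with h | h <;> rw [h] <;> norm_num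
  have h1 : (1 / 4 - η - 1 / Real.sqrt p) * p ≤
      ∑ a : ZMod p, if η * Real.sqrt p < σ * Pool.Agent.TH375.KL.rk p a 1 then (1 : ℝ) else 0 := by
    have h := Pool.Agent.TH375.KL.sign_mean (p := p) hσ2 hη
    convert h
  unfold Pool.Agent.V11113.MR.rho
  rw [le_div_iff₀ hp0]
  have h2 : (∑ a : ZMod p, if η * Real.sqrt p < σ * Pool.Agent.TH375.KL.rk p a 1 then (1 : ℝ) else 0) ≤
      (((range p).filter (fun r : ℕ => (r : ZMod p) ∈ SG σ η p)).card : ℝ) + 1 := by
    rw [← sum_filter, sum_const, nsmul_eq_mul, mul_one]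
    have h3 : ((univ : Finset (ZMod p)).filter (fun a => η * Real.sqrt p < σ * Pool.Agent.TH375.KL.rk p a 1)).card ≤
        (insert (0 : ZMod p) (((range p).filter (fun r : ℕ => (r : ZMod p) ∈ SG σ η p)).image
          (fun r : ℕ => (r : ZMod p)))).card := by
      apply card_le_card
      intro a ha
      rw [mem_filter] at ha
      rw [mem_insert]
      by_cases h0 : a = 0
      · left
        exact h0
      · right
        rw [mem_image]
        refine ⟨a.val, ?_, ZMod.natCast_zmod_val a⟩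
        rw [mem_filter, mem_range]
        refine ⟨ZMod.val_lt a, ?_⟩
        rw [ZMod.natCast_zmod_val a]
        refine ⟨h0, ?_⟩
        rw [kl_eq]
        exact ha.2
    have h4 := h3.trans ((card_insert_le _ _).trans (Nat.add_le_add_right card_image_le 1))
    exact_mod_cast h4
  have h5 : (1 / 4 - η - 1 / Real.sqrt p - 1 / p) * (p : ℝ) = (1 / 4 - η - 1 / Real.sqrt p) * p - 1 := by
    field_simp
  rw [h5]
  have h6 := h1.trans h2
  have h7 : (1 / 4 - η - 1 / Real.sqrt p) * p - 1 ≤ (((range p).filter (fun r : ℕ => (r : ZMod p) ∈ SG σ η p)).card : ℝ) := by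
    linarith
  refine h7.trans (le_of_eq ?_)
  congr!

lemma rho_ev (η : ℝ) (hη : 0 ≤ η) (σ : ℝ) (hσ : σ = 1 ∨ σ = -1) (e : ℝ) (he : 0 < e) :
    ∀ᶠ p in Filter.atTop, Nat.Prime p → (1 / 4 - η) - e ≤ Pool.Agent.V11113.MR.rho (fun p => p) (SG σ η) p := by
  have h1 : Filter.Tendsto (fun p : ℕ => 1 / Real.sqrt p) Filter.atTop (nhds 0) := by
    have := (Real.tendsto_sqrt_atTop.comp (tendsto_natCast_atTop_atTop (R := ℝ))).inv_tendsto_atTop
    refine this.congr fun n => ?_
    simp
  have h2 : Filter.Tendsto (fun p : ℕ => 1 / (p : ℝ)) Filter.atTop (nhds 0) := tendsto_one_div_atTop_nhds_zero_nat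
  have h3 := h1.add h2
  rw [add_zero] at h3
  filter_upwards [h3.eventually (gt_mem_nhds he)] with p hpe hp
  have := rho_SG η hη σ hσ p hp
  linarith

lemma dvd_iff (p : ℕ) (n : ℤ) : ¬ (p : ℤ) ∣ n ↔ (n : ZMod p) ≠ 0 := by
  rw [Ne, ZMod.intCast_zmod_eq_zero_iff_dvd]

lemma count_eq (I : ℕ → Set ℝ) (n : ℤ) (x : ℕ) :
    Pool.Agent.V11113.MR.hits Pool.Agent.V11113.MR.Pr (fun p => p) (AG I) n x = count I n x := by
  classical
  unfold Pool.Agent.V11113.MR.hits count
  rw [Pool.Agent.V11113.MR.idx_Pr]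
  unfold Pool.Agent.H386R2.Artin.PP
  rw [filter_filter]
  congr 1
  refine filter_congr fun p _ => and_congr_right fun _ => ?_
  rw [dvd_iff]
  exact Iff.rfl

lemma sign_eq (σ η : ℝ) (n : ℤ) (x : ℕ) :
    Pool.Agent.V11113.MR.hits Pool.Agent.V11113.MR.Pr (fun p => p) (SG σ η) n x = signCount σ η n x := by
  classical
  unfold Pool.Agent.V11113.MR.hits signCount
  rw [Pool.Agent.V11113.MR.idx_Pr]
  unfold Pool.Agent.H386R2.Artin.PP
  rw [filter_filter]
  congr 1
  refine filter_congr fun p _ => and_congr_right fun _ => ?_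
  rw [dvd_iff]
  exact Iff.rfl

lemma model_eq (I : ℕ → Set ℝ) (x : ℕ) :
    Pool.Agent.V11113.MR.expected Pool.Agent.V11113.MR.Pr (fun p => p) (AG I) x = model I x := by
  classical
  unfold Pool.Agent.V11113.MR.expected model
  rw [Pool.Agent.V11113.MR.idx_Pr]
  refine sum_congr rfl fun p _ => ?_
  unfold Pool.Agent.V11113.MR.rho
  congr 2
  apply congrArg
  refine filter_congr fun r _ => ?_
  rw [dvd_iff, Int.cast_natCast]
  unfold angle kloosterman
  rw [Int.cast_natCast]
  exact Iff.rfl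

/-- Let `δ > 0`. There are `c > 0` and `m₀` such that for every `ε > 0` there is a constant `C` with:

(1) For arbitrary sets `I p` of angles, for all `m ≥ m₀`, all families with `Small m δ s v`, all integers `a` and all `X ≥ 2`, all
but at most `C #s / π(X)` of the integers `n = a + v i` (`0 ≤ v i < m` the least residue) have the following property for EVERY
`x` with `X ≤ x ≤ m ^ c`: the number of the primes `p ≤ x` with `p ∤ n` and `θ_p(n) ∈ I p` differs from the sum over the primes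
`p ≤ x` of the proportion of the residues `r` modulo `p` with `p ∤ r` and `θ_p(r) ∈ I p` by at most `ε π(x)`.

(2) Let `η ≥ 0`. There is `X₀` such that for all `m ≥ m₀`, all families with `Small m δ s v`, all integers `a` and all `X ≥ X₀`,
all but at most `C #s / π(X)` of the integers `n = a + v i` have the following property for EVERY `x` with `X ≤ x ≤ m ^ c`: each of
`S(n, 1; p) > η p ^ (1 / 2)` and `S(n, 1; p) < -η p ^ (1 / 2)` holds for at least `(1 / 4 - η - ε) π(x)` of the primes `p ≤ x`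
with `p ∤ n`.

(3) `Small p δ` holds for every prime `p`, every `d`, all sets `A`, `A'` of vectors modulo `p` with
`#A #A' ≥ p ^ (d + 2 δ)`, every invertible matrix `Q` and arbitrary functions `f`, `g`, for the family
`x · Q y + f(x) + g(y)`, `x ∈ A`, `y ∈ A'`. -/
theorem result (δ : ℝ) (hδ : 0 < δ) : ∃ c : ℝ, 0 < c ∧ ∃ m₀ : ℕ,
    (∀ ε : ℝ, 0 < ε → ∃ C : ℝ, 0 < C ∧
      (∀ I : ℕ → Set ℝ, ∀ (m : ℕ) [NeZero m], m₀ ≤ m → ∀ (ι : Type) (s : Finset ι) (v : ι → ZMod m), Small m δ s v →
        ∀ (a : ℤ) (X : ℕ), 2 ≤ X →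
          (exceptions s (fun i => a + ((v i).val : ℤ))
            (fun x n => |(count I n x : ℝ) - model I x| ≤ ε * Nat.primeCounting x) X ((m : ℝ) ^ c) : ℝ) ≤
            C * s.card / Nat.primeCounting X) ∧
      (∀ η : ℝ, 0 ≤ η → ∃ X₀ : ℕ,
        ∀ (m : ℕ) [NeZero m], m₀ ≤ m → ∀ (ι : Type) (s : Finset ι) (v : ι → ZMod m), Small m δ s v →
        ∀ (a : ℤ) (X : ℕ), X₀ ≤ X →
          (exceptions s (fun i => a + ((v i).val : ℤ))
            (fun x n => (1 / 4 - η - ε) * Nat.primeCounting x ≤ signCount 1 η n x ∧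
              (1 / 4 - η - ε) * Nat.primeCounting x ≤ signCount (-1) η n x) X ((m : ℝ) ^ c) : ℝ) ≤
            C * s.card / Nat.primeCounting X)) ∧
    (∀ (p : ℕ) [Fact p.Prime] (d : ℕ) (A A' : Finset (Fin d → ZMod p)) (Q : Matrix (Fin d) (Fin d) (ZMod p)),
      IsUnit Q.det → (p : ℝ) ^ (d + 2 * δ) ≤ A.card * A'.card → ∀ f g : (Fin d → ZMod p) → ZMod p,
      Small p δ (A ×ˢ A') (fun z => z.1 ⬝ᵥ Q.mulVec z.2 + f z.1 + g z.2)) := by
  classical
  obtain ⟨m₁, hm₁⟩ := Pool.Agent.V11113.MR.model δ hδ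
  obtain ⟨m₂, hm₂⟩ := Pool.Agent.V11113.MR.below δ hδ
  refine ⟨Pool.Agent.V11113.MR.cc δ 1, Pool.Agent.V11113.MR.cc_pos δ hδ 1, max m₁ m₂, fun ε hε => ?_, ?_⟩
  · obtain ⟨C₁, hC₁, h₁⟩ := hm₁ ε hε
    obtain ⟨C₂, hC₂, h₂⟩ := hm₂ ε hε
    refine ⟨C₁ + 2 * C₂, by positivity, ?_, fun η hη => ?_⟩
    · intro I m _ hm ι s v hs a X hX
      have h := h₁ (AG I) m ((le_max_left _ _).trans hm) ι s v hs a X hX
      have hC : C₁ * s.card / Nat.primeCounting X ≤ (C₁ + 2 * C₂) * s.card / Nat.primeCounting X := by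
        have : C₁ ≤ C₁ + 2 * C₂ := by linarith
        gcongr
      refine le_trans (le_trans (le_of_eq ?_) h) hC
      unfold exceptions
      simp only [count_eq, model_eq, not_le]
    · obtain ⟨X₁, hX₁⟩ := h₂ (SG 1 η) (1 / 4 - η) (fun e he => rho_ev η hη 1 (Or.inl rfl) e he)
      obtain ⟨X₂, hX₂⟩ := h₂ (SG (-1) η) (1 / 4 - η) (fun e he => rho_ev η hη (-1) (Or.inr rfl) e he)
      refine ⟨max X₁ X₂, fun m _ hm ι s v hs a X hX => ?_⟩
      have k1 := hX₁ m ((le_max_right _ _).trans hm) ι s v hs a X ((le_max_left _ _).trans hX)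
      have k2 := hX₂ m ((le_max_right _ _).trans hm) ι s v hs a X ((le_max_right _ _).trans hX)
      simp only [sign_eq] at k1 k2
      obtain ⟨E₁, hE₁⟩ : ∃ E₁, E₁ = s.filter (fun i => ∃ x : ℕ, X ≤ x ∧ (x : ℝ) ≤ (m : ℝ) ^ Pool.Agent.V11113.MR.cc δ 1 ∧
        (signCount 1 η (a + ((v i).val : ℤ)) x : ℝ) < (1 / 4 - η - ε) * Nat.primeCounting x) := ⟨_, rfl⟩
      obtain ⟨E₂, hE₂⟩ : ∃ E₂, E₂ = s.filter (fun i => ∃ x : ℕ, X ≤ x ∧ (x : ℝ) ≤ (m : ℝ) ^ Pool.Agent.V11113.MR.cc δ 1 ∧
        (signCount (-1) η (a + ((v i).val : ℤ)) x : ℝ) < (1 / 4 - η - ε) * Nat.primeCounting x) := ⟨_, rfl⟩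
      have k1' : (E₁.card : ℝ) ≤ C₂ * s.card / Nat.primeCounting X := by
        rw [hE₁]
        convert k1
      have k2' : (E₂.card : ℝ) ≤ C₂ * s.card / Nat.primeCounting X := by
        rw [hE₂]
        convert k2
      have hsub : s.filter (fun i => ∃ x : ℕ, X ≤ x ∧ (x : ℝ) ≤ (m : ℝ) ^ Pool.Agent.V11113.MR.cc δ 1 ∧
          ¬ ((1 / 4 - η - ε) * Nat.primeCounting x ≤ signCount 1 η (a + ((v i).val : ℤ)) x ∧
            (1 / 4 - η - ε) * Nat.primeCounting x ≤ signCount (-1) η (a + ((v i).val : ℤ)) x)) ⊆ E₁ ∪ E₂ := by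
        intro i hi
        rw [mem_filter] at hi
        obtain ⟨his, x, hx1, hx2, hx3⟩ := hi
        rw [mem_union, hE₁, hE₂, mem_filter, mem_filter]
        rw [not_and_or, not_le, not_le] at hx3
        rcases hx3 with h | h
        · exact Or.inl ⟨his, x, hx1, hx2, h⟩
        · exact Or.inr ⟨his, x, hx1, hx2, h⟩
      have k3 : ((s.filter (fun i => ∃ x : ℕ, X ≤ x ∧ (x : ℝ) ≤ (m : ℝ) ^ Pool.Agent.V11113.MR.cc δ 1 ∧
          ¬ ((1 / 4 - η - ε) * Nat.primeCounting x ≤ signCount 1 η (a + ((v i).val : ℤ)) x ∧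
            (1 / 4 - η - ε) * Nat.primeCounting x ≤ signCount (-1) η (a + ((v i).val : ℤ)) x))).card : ℝ) ≤ E₁.card + E₂.card := by
        exact_mod_cast (card_le_card hsub).trans (card_union_le _ _)
      have hπ : (0 : ℝ) ≤ s.card / Nat.primeCounting X := by positivity
      have k4 : C₂ * s.card / Nat.primeCounting X + C₂ * s.card / Nat.primeCounting X ≤
          (C₁ + 2 * C₂) * s.card / Nat.primeCounting X := by
        rw [mul_div_assoc, mul_div_assoc, ← add_mul]
        exact mul_le_mul_of_nonneg_right (by linarith) hπ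
      unfold exceptions
      refine le_trans ?_ (k3.trans ((add_le_add k1' k2').trans k4))
      apply le_of_eq
      congr!
  · intro p _ d A A' Q hQ hN f g b hb
    exact Pool.Agent.V11113.MR.bil_small δ p d A A' Q hQ f g hN b hb

end Pool.Agent.Results.MP_6ea630_nt.ThinFamilies
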